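import Mathlib

/-!
# MP_4423d6_an: critical versus pathwise critical coupling in the Winfree model (Q2 is false)

For `N ≥ 2`, `w > 0`, `Ω = (w, 0, …, 0)` and `Θ⁰ = (0, π, …, π)` the oscillators `2, …, N` rest at
`π` for ever and do not contribute to the mean field, so the first oscillator obeys
`θ' = w - (κ/N) (1 + cos θ) sin θ`, which runs to infinity for `κ < 4 N w / (3 √3)`.  On the other
hand an equilibrium exists as soon as `κ ≥ N w / (2 N - 1)`.
-/

open Filter Topology Set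

namespace Pool.Agent.Results.MP_4423d6_an.StrongFormFails

/-- The right-hand side of the (sinusoidal) Winfree model. -/
noncomputable def field (N : ℕ) (Ω : Fin N → ℝ) (κ : ℝ) (θ : Fin N → ℝ) (i : Fin N) : ℝ :=
  Ω i - κ / N * ∑ j, (1 + Real.cos (θ j)) * Real.sin (θ i)

/-- `θ : [0,∞) → ℝ^N` is the solution of the initial value problem with initial phases `Θ₀`. -/
def IsSolution (N : ℕ) (Ω : Fin N → ℝ) (κ : ℝ) (Θ₀ : Fin N → ℝ) (θ : ℝ → Fin N → ℝ) : Prop :=
  θ 0 = Θ₀ ∧ (∀ i, ContinuousOn (fun t => θ t i) (Ici 0)) ∧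
    ∀ t, 0 < t → ∀ i, HasDerivAt (fun s => θ s i) (field N Ω κ (θ t) i) t

/-- The solution from `Θ₀` converges: every component has a finite limit. -/
def SolutionConverges (N : ℕ) (Ω : Fin N → ℝ) (κ : ℝ) (Θ₀ : Fin N → ℝ) : Prop :=
  ∀ θ : ℝ → Fin N → ℝ, IsSolution N Ω κ Θ₀ θ →
    ∀ i, ∃ L : ℝ, Tendsto (fun t => θ t i) atTop (𝓝 L)

/-- The system has an equilibrium. -/
def HasEquilibrium (N : ℕ) (Ω : Fin N → ℝ) (κ : ℝ) : Prop :=
  ∃ θ : Fin N → ℝ, ∀ i, field N Ω κ θ i = 0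

/-- The critical coupling strength (infimum in the extended reals). -/
noncomputable def kappaC (N : ℕ) (Ω : Fin N → ℝ) : EReal :=
  sInf ((fun k : ℝ => (k : EReal)) '' {k : ℝ | 0 < k ∧ ∀ κ : ℝ, k < κ → HasEquilibrium N Ω κ})

/-- The pathwise critical coupling strength (infimum in the extended reals). -/
noncomputable def kappaPC (N : ℕ) (Θ₀ Ω : Fin N → ℝ) : EReal :=
  sInf ((fun k : ℝ => (k : EReal)) ''
    {k : ℝ | 0 < k ∧ ∀ κ : ℝ, k < κ → SolutionConverges N Ω κ Θ₀})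

/-- `Ω = (w, 0, …, 0)`. -/
def Om (N : ℕ) (w : ℝ) : Fin N → ℝ := fun i => if i.val = 0 then w else 0

/-- `Θ⁰ = (0, π, …, π)`. -/
noncomputable def Th (N : ℕ) : Fin N → ℝ := fun i => if i.val = 0 then 0 else Real.pi

lemma bump_le (x : ℝ) : (1 + Real.cos x) * Real.sin x ≤ 3 * Real.sqrt 3 / 4 := by
  have h3 : Real.sqrt 3 ^ 2 = 3 := Real.sq_sqrt (by norm_num)
  have h0 : 0 ≤ 3 * Real.sqrt 3 / 4 := by positivity
  by_contra hcon
  push Not at hcon
  have hcon2 := pow_lt_pow_left₀ hcon h0 (n := 2) two_ne_zero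
  revert hcon2
  rw [imp_false, not_lt]
  have hs : Real.sin x ^ 2 = 1 - Real.cos x ^ 2 := by
    have := Real.sin_sq_add_cos_sq x; linarith
  have e1 : ((1 + Real.cos x) * Real.sin x) ^ 2 = (1 + Real.cos x) ^ 2 * (1 - Real.cos x ^ 2) := by
    rw [mul_pow, hs]
  have e2 : (3 * Real.sqrt 3 / 4) ^ 2 = 27 / 16 := by
    have : (3 * Real.sqrt 3 / 4) ^ 2 = 9 * Real.sqrt 3 ^ 2 / 16 := by ring
    rw [this, h3]; norm_num
  rw [e1, e2]
  set c := Real.cos x
  have h1 : 27 / 16 - (1 + c) ^ 2 * (1 - c ^ 2) = (c - 1 / 2) ^ 2 * (c ^ 2 + 3 * c + 11 / 4) := by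
    ring
  have h2 : 0 ≤ (c - 1 / 2) ^ 2 * (c ^ 2 + 3 * c + 11 / 4) := by
    apply mul_nonneg (sq_nonneg _)
    nlinarith [sq_nonneg (c + 3 / 2)]
  linarith

/-- A scalar autonomous equation with continuous positive bounded-below-and-above right-hand side
has a global solution from `0` that tends to `+∞`. -/
lemma running (g : ℝ → ℝ) (hg : Continuous g) (m M : ℝ) (hm : 0 < m) (hgm : ∀ x, m ≤ g x)
    (hgM : ∀ x, g x ≤ M) :
    ∃ φ : ℝ → ℝ, φ 0 = 0 ∧ (∀ t, HasDerivAt φ (g (φ t)) t) ∧ Tendsto φ atTop atTop := by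
  have hpos : ∀ x, 0 < g x := fun x => hm.trans_le (hgm x)
  have hM : 0 < M := (hpos 0).trans_le (hgM 0)
  have hc : Continuous (fun x => (g x)⁻¹) := hg.inv₀ (fun x => (hpos x).ne')
  set T : ℝ → ℝ := fun x => ∫ u in (0 : ℝ)..x, (g u)⁻¹ with hT
  have hd : ∀ x, HasDerivAt T ((g x)⁻¹) x := fun x =>
    intervalIntegral.integral_hasDerivAt_right (hc.intervalIntegrable _ _)
      (hc.stronglyMeasurableAtFilter _ _) hc.continuousAt
  have hdiff : Differentiable ℝ T := fun x => (hd x).differentiableAt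
  have hmono : StrictMono T := by
    apply strictMono_of_deriv_pos
    intro x
    rw [(hd x).deriv]
    exact inv_pos.mpr (hpos x)
  have hT0 : T 0 = 0 := by simp [hT]
  have hlow : ∀ x y, x ≤ y → M⁻¹ * (y - x) ≤ T y - T x := by
    intro x y hxy
    apply mul_sub_le_image_sub_of_le_deriv hdiff _ hxy
    intro z
    rw [(hd z).deriv]
    exact inv_anti₀ (hpos z) (hgM z)
  have hMi : 0 < M⁻¹ := inv_pos.mpr hM
  have htop : Tendsto T atTop atTop := by
    apply tendsto_atTop_mono' atTop _ (tendsto_id.const_mul_atTop hMi)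
    filter_upwards [eventually_ge_atTop 0] with x hx
    have := hlow 0 x hx
    rw [hT0] at this
    simpa using this
  have hbot : Tendsto T atBot atBot := by
    apply tendsto_atBot_mono' atBot _ (tendsto_id.const_mul_atBot hMi)
    filter_upwards [eventually_le_atBot 0] with x hx
    have := hlow x 0 hx
    rw [hT0] at this
    simp only [id]
    linarith
  have hsurj : Function.Surjective T := hdiff.continuous.surjective htop hbot
  set e := StrictMono.orderIsoOfSurjective T hmono hsurj with he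
  have he1 : ∀ x, e x = T x := fun x => rfl
  refine ⟨e.symm, ?_, ?_, e.symm.tendsto_atTop⟩
  · rw [e.symm_apply_eq, he1, hT0]
  · intro t
    have h1 : HasDerivAt T ((g (e.symm t))⁻¹) (e.symm t) := hd _
    have h2 := h1.of_local_left_inverse (f := T) (g := e.symm) (a := t)
      e.symm.continuous.continuousAt (inv_ne_zero (hpos _).ne')
      (Eventually.of_forall (fun y => by
        have := e.apply_symm_apply y
        rw [he1] at this
        exact this))
    simpa using h2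

lemma sum_cos (N : ℕ) (hN : 1 ≤ N) (a b c : ℝ) :
    ∑ j : Fin N, (1 + Real.cos (if j.val = 0 then a else b)) * c
      = ((1 + Real.cos a) + (N - 1) * (1 + Real.cos b)) * c := by
  obtain ⟨m, rfl⟩ : ∃ m, N = m + 1 := ⟨N - 1, by omega⟩
  rw [Fin.sum_univ_succ]
  simp
  ring

lemma equilibrium (N : ℕ) (hN : 1 ≤ N) (w : ℝ) (hw : 0 < w) (κ : ℝ)
    (hκ : N * w / (2 * N - 1) ≤ κ) : HasEquilibrium N (Om N w) κ := by
  have hN1 : (1 : ℝ) ≤ N := by exact_mod_cast hN
  have hN0 : (0 : ℝ) < N := by linarith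
  have h2N : (0 : ℝ) < 2 * N - 1 := by linarith
  set h : ℝ → ℝ := fun x => κ / N * (((1 + Real.cos x) + (N - 1) * (1 + Real.cos 0)) * Real.sin x)
    with hh
  have hc : ContinuousOn h (Icc 0 (Real.pi / 2)) := by
    apply Continuous.continuousOn
    fun_prop
  have hmem : w ∈ Icc (h 0) (h (Real.pi / 2)) := by
    constructor
    · simp [hh]; exact hw.le
    · have : h (Real.pi / 2) = κ / N * (2 * N - 1) := by
        simp only [hh, Real.cos_pi_div_two, Real.sin_pi_div_two, Real.cos_zero]; ring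
      rw [this]
      rw [div_le_iff₀ h2N] at hκ
      rw [div_mul_eq_mul_div, le_div_iff₀ hN0]
      linarith
  obtain ⟨x, _, hx⟩ := intermediate_value_Icc (by positivity) hc hmem
  refine ⟨fun i => if i.val = 0 then x else 0, fun i => ?_⟩
  unfold field Om
  rw [sum_cos N hN]
  by_cases hi : i.val = 0
  · simp only [hi, if_true]
    simp only [hh] at hx
    linarith
  · simp [hi]

lemma not_converges (N : ℕ) (hN : 1 ≤ N) (w : ℝ) (κ : ℝ) (hκ0 : 0 < κ)
    (hκ : κ < 4 * N * w / (3 * Real.sqrt 3)) : ¬ SolutionConverges N (Om N w) κ (Th N) := by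
  have hN1 : (1 : ℝ) ≤ N := by exact_mod_cast hN
  have hN0 : (0 : ℝ) < N := by linarith
  have h3 : 0 < Real.sqrt 3 := by positivity
  set g : ℝ → ℝ := fun x => w - κ / N * ((1 + Real.cos x) * Real.sin x) with hg
  have hκN : 0 < κ / N := by positivity
  have hm : 0 < w - κ / N * (3 * Real.sqrt 3 / 4) := by
    rw [lt_div_iff₀ (by positivity)] at hκ
    have : κ / N * (3 * Real.sqrt 3 / 4) = κ * (3 * Real.sqrt 3) / (4 * N) := by
      field_simp
    rw [this, sub_pos, div_lt_iff₀ (by positivity)]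
    linarith
  obtain ⟨φ, hφ0, hφ, hφt⟩ := running g (by fun_prop) (w - κ / N * (3 * Real.sqrt 3 / 4))
    (w + κ / N * 2) hm
    (fun x => by
      have := mul_le_mul_of_nonneg_left (bump_le x) hκN.le
      simp only [hg]
      linarith)
    (fun x => by
      have h1 : -2 ≤ (1 + Real.cos x) * Real.sin x := by
        have hs := Real.neg_one_le_sin x
        have hc0 := Real.neg_one_le_cos x
        have hc1 := Real.cos_le_one x
        nlinarith
      have := mul_le_mul_of_nonneg_left h1 hκN.le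
      simp only [hg]
      linarith)
  intro hconv
  obtain ⟨L, hL⟩ := hconv (fun t i => if i.val = 0 then φ t else Real.pi) (by
    refine ⟨?_, ?_, ?_⟩
    · funext i
      simp [Th, hφ0]
    · intro i
      by_cases hi : i.val = 0
      · simp only [hi, if_true]
        exact (continuous_iff_continuousAt.mpr fun t => (hφ t).continuousAt).continuousOn
      · simp only [hi, if_false]
        exact continuousOn_const
    · intro t _ i
      unfold field Om
      rw [sum_cos N hN]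
      by_cases hi : i.val = 0
      · simp only [hi, if_true]
        have h := hφ t
        simp only [hg] at h
        convert h using 1
        simp
      · simp only [hi, if_false]
        simpa using hasDerivAt_const t Real.pi) ⟨0, by omega⟩
  simp only [if_true] at hL
  exact not_tendsto_nhds_of_tendsto_atTop hφt L hL

/-- **Q2 of MP_4423d6_an is false** (for every `N ≥ 2`), and so is the universal bound
`κ_pc ≤ c ‖Ω‖_∞`.

* For all `N ≥ 2` and `w > 0`, with `Ω = (w,0,…,0)` and `Θ⁰ = (0,π,…,π)`,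
  `κ_c(Ω) ≤ N w/(2N-1) < 4 N w/(3√3) ≤ κ_pc(Θ⁰,Ω)`.
* Hence for every `N ≥ 2` there are `Ω`, `Θ⁰` with `κ_c(Ω) ≠ κ_pc(Θ⁰,Ω)`.
* There is no constant `c` with `κ_pc(Θ⁰,Ω) ≤ c ‖Ω‖_∞` for all `N ≥ 1`, `Ω`, `Θ⁰`. -/
theorem result :
    (∀ N : ℕ, 2 ≤ N → ∀ w : ℝ, 0 < w →
      kappaC N (Om N w) ≤ ((N * w / (2 * N - 1) : ℝ) : EReal) ∧
      N * w / (2 * N - 1) < 4 * N * w / (3 * Real.sqrt 3) ∧
      ((4 * N * w / (3 * Real.sqrt 3) : ℝ) : EReal) ≤ kappaPC N (Th N) (Om N w)) ∧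
    (∀ N : ℕ, 2 ≤ N → ∃ Ω Θ₀ : Fin N → ℝ, kappaC N Ω < kappaPC N Θ₀ Ω) ∧
    (¬ ∀ N : ℕ, 1 ≤ N → ∀ Ω Θ₀ : Fin N → ℝ, kappaC N Ω = kappaPC N Θ₀ Ω) ∧
    (¬ ∃ c : ℝ, 0 < c ∧ ∀ N : ℕ, 1 ≤ N → ∀ Ω Θ₀ : Fin N → ℝ,
      kappaPC N Θ₀ Ω ≤ ((c * ‖Ω‖ : ℝ) : EReal)) := by
  have h3 : 0 < Real.sqrt 3 := by positivity
  have h3' : Real.sqrt 3 < 2 := by
    rw [Real.sqrt_lt' (by norm_num)]; norm_num
  have main : ∀ N : ℕ, 2 ≤ N → ∀ w : ℝ, 0 < w →
      kappaC N (Om N w) ≤ ((N * w / (2 * N - 1) : ℝ) : EReal) ∧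
      N * w / (2 * N - 1) < 4 * N * w / (3 * Real.sqrt 3) ∧
      ((4 * N * w / (3 * Real.sqrt 3) : ℝ) : EReal) ≤ kappaPC N (Th N) (Om N w) := by
    intro N hN w hw
    have hN2 : (2 : ℝ) ≤ N := by exact_mod_cast hN
    have h2N : (0 : ℝ) < 2 * N - 1 := by linarith
    refine ⟨?_, ?_, ?_⟩
    · apply sInf_le
      refine ⟨N * w / (2 * N - 1), ⟨by positivity, fun κ hκ => ?_⟩, rfl⟩
      exact equilibrium N (by omega) w hw κ hκ.le
    · rw [div_lt_div_iff₀ h2N (by positivity)]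
      have : 0 < (N : ℝ) * w := by positivity
      nlinarith
    · apply le_sInf
      rintro _ ⟨k, ⟨hk0, hk⟩, rfl⟩
      rw [EReal.coe_le_coe_iff]
      by_contra hlt
      push Not at hlt
      refine not_converges N (by omega) w ((k + 4 * N * w / (3 * Real.sqrt 3)) / 2)
        (by linarith) (by linarith) (hk _ (by linarith))
  have main2 : ∀ N : ℕ, 2 ≤ N → ∃ Ω Θ₀ : Fin N → ℝ, kappaC N Ω < kappaPC N Θ₀ Ω := by
    intro N hN
    obtain ⟨h1, h2, h4⟩ := main N hN 1 one_pos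
    exact ⟨Om N 1, Th N, lt_of_le_of_lt h1 (lt_of_lt_of_le (EReal.coe_lt_coe_iff.mpr h2) h4)⟩
  refine ⟨main, main2, ?_, ?_⟩
  · intro h
    obtain ⟨Ω, Θ₀, hlt⟩ := main2 2 le_rfl
    exact hlt.ne (h 2 (by norm_num) Ω Θ₀)
  · rintro ⟨c, hc, h⟩
    obtain ⟨n, hn⟩ := exists_nat_gt (3 * Real.sqrt 3 * c)
    obtain ⟨_, _, h4⟩ := main (n + 2) (by omega) 1 one_pos
    have h5 := h4.trans (h (n + 2) (by omega) (Om (n + 2) 1) (Th (n + 2)))
    rw [EReal.coe_le_coe_iff] at h5
    have hnorm : ‖Om (n + 2) 1‖ ≤ 1 := by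
      rw [pi_norm_le_iff_of_nonneg zero_le_one]
      intro i
      unfold Om
      split_ifs <;> simp
    have h6 : 4 * ((n + 2 : ℕ) : ℝ) * 1 / (3 * Real.sqrt 3) ≤ c :=
      h5.trans (by nlinarith)
    rw [div_le_iff₀ (by positivity)] at h6
    push_cast at h6
    have : (0 : ℝ) ≤ n := Nat.cast_nonneg n
    nlinarith

end Pool.Agent.Results.MP_4423d6_an.StrongFormFails
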